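import Mathlib

/-!
# Static tower: two constants by a barrier (MP_70a088_an, rational maps)

`BAR`: a holomorphic function on a bounded open set whose boundary consists of a part where it is small (the two long rows) and of two far ends, where it is not much larger than at a point in the
middle: then it is small in the middle.
-/

set_option autoImplicit false

open Complex Metric Set Filter Topology

noncomputable section

namespace STB

/-- BAR: two constants by the barrier `exp (-w²/100)`. -/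
theorem BAR (A : ℂ → ℂ) (U : Set ℂ) (hUb : Bornology.IsBounded U) (hA : DiffContOnCl ℂ A U) (w₀ : ℂ) (hw₀ : w₀ ∈ closure U)
    (hre : |w₀.re| ≤ 1 / 2) (m : ℝ) (hm0 : 0 ≤ m) (him : ∀ w ∈ frontier U, |w.im| ≤ 1)
    (hfr : ∀ w ∈ frontier U, ‖A w‖ ≤ m ∨ (5 ≤ |w.re| ∧ ‖A w‖ ≤ (101 / 100) * ‖A w₀‖)) :
    ‖A w₀‖ ≤ (102 / 100) * m := by
  -- the barrier
  set B : ℂ → ℂ := fun w => A w * Complex.exp (-(w ^ 2) / 100) with hB
  have hexp : ∀ w : ℂ, ‖Complex.exp (-(w ^ 2) / 100)‖ = Real.exp ((w.im ^ 2 - w.re ^ 2) / 100) := by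
    intro w
    rw [Complex.norm_exp]
    congr 1
    have : (-(w ^ 2) / 100 : ℂ).re = -(w ^ 2).re / 100 := by
      have h1 : (-(w ^ 2) / 100 : ℂ) = (((1 / 100 : ℝ) : ℂ)) * (-(w ^ 2)) := by push_cast; ring
      rw [h1, Complex.re_ofReal_mul, Complex.neg_re]; ring
    rw [this]
    have h2 : (w ^ 2).re = w.re ^ 2 - w.im ^ 2 := by
      rw [pow_two, Complex.mul_re]; ring
    rw [h2]; ring
  have hBd : DiffContOnCl ℂ B U := by
    have h1 : Differentiable ℂ (fun w : ℂ => Complex.exp (-(w ^ 2) / 100)) := by fun_prop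
    refine ⟨hA.1.mul h1.differentiableOn, hA.2.mul h1.continuous.continuousOn⟩
  -- numerical facts
  have e1 : Real.exp (1 / 100) ≤ 1.0101 := by
    have := Real.exp_bound' (x := 1 / 100) (by norm_num) (by norm_num) (n := 2) (by norm_num)
    refine this.trans ?_
    simp [Finset.sum_range_succ, Nat.factorial]
    norm_num
  have e2 : Real.exp (-(24 / 100)) ≤ 0.8 := by
    have h1 : Real.exp (-(24 / 100)) = (Real.exp (24 / 100))⁻¹ := Real.exp_neg _
    rw [h1]
    have h2 : (24 / 100 : ℝ) + 1 ≤ Real.exp (24 / 100) := Real.add_one_le_exp _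
    have h3 : (1.24 : ℝ) ≤ Real.exp (24 / 100) := by linarith
    have h4 : (1.25 : ℝ) ≤ Real.exp (24 / 100) := by
      have h5 := Real.quadratic_le_exp_of_nonneg (x := 24 / 100) (by norm_num)
      have : (1.25 : ℝ) ≤ 1 + 24 / 100 + (24 / 100) ^ 2 / 2 := by norm_num
      linarith
    have h6 : (Real.exp (24 / 100))⁻¹ ≤ (1.25 : ℝ)⁻¹ := inv_anti₀ (by norm_num) h4
    refine h6.trans ?_
    norm_num
  have e3 : (0.997 : ℝ) ≤ Real.exp (-(1 / 400)) := by
    have := Real.add_one_le_exp (-(1 / 400 : ℝ))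
    refine le_trans ?_ this
    norm_num
  by_cases hm : ‖A w₀‖ ≤ (102 / 100) * m
  · exact hm
  push Not at hm
  exfalso
  have hA0 : 0 ≤ ‖A w₀‖ := norm_nonneg _
  set K : ℝ := max (1.0101 * m) (0.8 * ((101 / 100) * ‖A w₀‖)) with hK
  have hfrB : ∀ w ∈ frontier U, ‖B w‖ ≤ K := by
    intro w hw
    have hi := him w hw
    have hi2 : w.im ^ 2 ≤ 1 := by
      have := sq_abs w.im
      nlinarith [abs_nonneg w.im]
    rw [hB]
    simp only [norm_mul]
    rw [hexp]
    rcases hfr w hw with h | ⟨h5, h⟩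
    · refine le_trans ?_ (le_max_left _ _)
      have h1 : Real.exp ((w.im ^ 2 - w.re ^ 2) / 100) ≤ 1.0101 := by
        refine le_trans (Real.exp_le_exp.2 ?_) e1
        have := sq_nonneg w.re
        linarith
      rw [mul_comm]
      exact mul_le_mul h1 h (norm_nonneg _) (by norm_num)
    · refine le_trans ?_ (le_max_right _ _)
      have h1 : Real.exp ((w.im ^ 2 - w.re ^ 2) / 100) ≤ 0.8 := by
        refine le_trans (Real.exp_le_exp.2 ?_) e2
        have : (25 : ℝ) ≤ w.re ^ 2 := by
          rw [← sq_abs w.re]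
          nlinarith
        linarith
      rw [mul_comm]
      exact mul_le_mul h1 h (norm_nonneg _) (by norm_num)
  have hmax := Complex.norm_le_of_forall_mem_frontier_norm_le hUb hBd hfrB hw₀
  have hB0 : 0.997 * ‖A w₀‖ ≤ ‖B w₀‖ := by
    rw [hB]
    simp only [norm_mul]
    rw [hexp, mul_comm]
    refine mul_le_mul_of_nonneg_left ?_ hA0
    refine le_trans e3 (Real.exp_le_exp.2 ?_)
    have h1 : w₀.re ^ 2 ≤ 1 / 4 := by
      rw [← sq_abs]
      nlinarith [abs_nonneg w₀.re]
    have := sq_nonneg w₀.im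
    linarith
  rcases le_total (1.0101 * m) (0.8 * ((101 / 100) * ‖A w₀‖)) with h | h
  · rw [hK, max_eq_right h] at hmax
    nlinarith
  · rw [hK, max_eq_left h] at hmax
    nlinarith

end STB
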